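import Pool.Agent.N922.PQ.Stm

/-!
Project PQ: from a lower bound of order `X ^ 5` to a positive proportion.
-/

set_option autoImplicit false

namespace Pool.Agent.N607.PQ

open Pool.Agent.N922.PQ (Crv)

/-- the largest `X` -/
theorem exists_X (P H : ℕ) (hP : 1 ≤ P) : ∃ X : ℕ, 27 * (X * P) ^ 6 ≤ H ∧
    H < 27 * ((X + 1) * P) ^ 6 := by
  classical
  have hex : ∃ X : ℕ, H < 27 * ((X + 1) * P) ^ 6 := by
    refine ⟨H, ?_⟩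
    have h1 : H + 1 ≤ (H + 1) * P := Nat.le_mul_of_pos_right _ hP
    have h2 : (H + 1) * P ≤ ((H + 1) * P) ^ 6 := Nat.le_self_pow (by norm_num) _
    omega
  refine ⟨Nat.find hex, ?_, Nat.find_spec hex⟩
  rcases Nat.eq_zero_or_pos (Nat.find hex) with h | h
  · rw [h]
    simp
  · have h1 := Nat.find_min hex (m := Nat.find hex - 1) (by omega)
    rw [not_lt, Nat.sub_add_cancel h] at h1
    exact h1

/-- the box -/
theorem crv_sub {H Y : ℕ} (hY : H < 27 * Y ^ 6) : {p : ℤ × ℤ | Crv H p.1 p.2} ⊆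
    ((Finset.Icc (-(2 * (Y : ℤ) ^ 2)) (2 * (Y : ℤ) ^ 2) ×ˢ
      Finset.Icc (-((Y : ℤ) ^ 3)) ((Y : ℤ) ^ 3) : Finset (ℤ × ℤ)) : Set (ℤ × ℤ)) := by
  rintro ⟨A, B⟩ h
  have h1 : 4 * |A| ^ 3 ≤ (H : ℤ) := h.hA
  have h2 : 27 * B ^ 2 ≤ (H : ℤ) := h.hB
  have hH : (H : ℤ) < 27 * (Y : ℤ) ^ 6 := by exact_mod_cast hY
  rw [Finset.mem_coe, Finset.mem_product, Finset.mem_Icc, Finset.mem_Icc, ← abs_le, ← abs_le]
  constructor
  · show |A| ≤ 2 * (Y : ℤ) ^ 2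
    refine le_of_lt (lt_of_pow_lt_pow_left₀ 3 (by positivity) ?_)
    have h3 : (2 * (Y : ℤ) ^ 2) ^ 3 = 8 * (Y : ℤ) ^ 6 := by ring
    have h4 : (0 : ℤ) ≤ (Y : ℤ) ^ 6 := by positivity
    rw [h3]
    omega
  · show |B| ≤ (Y : ℤ) ^ 3
    refine le_of_lt (lt_of_pow_lt_pow_left₀ 2 (by positivity) ?_)
    have h3 : ((Y : ℤ) ^ 3) ^ 2 = (Y : ℤ) ^ 6 := by ring
    rw [h3, sq_abs]
    omega

theorem box_card {Y : ℕ} (hY : 1 ≤ Y) : (Finset.Icc (-(2 * (Y : ℤ) ^ 2)) (2 * (Y : ℤ) ^ 2) ×ˢ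
      Finset.Icc (-((Y : ℤ) ^ 3)) ((Y : ℤ) ^ 3) : Finset (ℤ × ℤ)).card ≤ 18 * Y ^ 5 := by
  rw [Finset.card_product, Int.card_Icc, Int.card_Icc]
  have e1 : (2 * (Y : ℤ) ^ 2 + 1 - -(2 * (Y : ℤ) ^ 2)).toNat = 4 * Y ^ 2 + 1 := by
    have : (2 * (Y : ℤ) ^ 2 + 1 - -(2 * (Y : ℤ) ^ 2)) = ((4 * Y ^ 2 + 1 : ℕ) : ℤ) := by
      push_cast
      ring
    rw [this, Int.toNat_natCast]
  have e2 : ((Y : ℤ) ^ 3 + 1 - -((Y : ℤ) ^ 3)).toNat = 2 * Y ^ 3 + 1 := by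
    have : ((Y : ℤ) ^ 3 + 1 - -((Y : ℤ) ^ 3)) = ((2 * Y ^ 3 + 1 : ℕ) : ℤ) := by
      push_cast
      ring
    rw [this, Int.toNat_natCast]
  rw [e1, e2]
  have h1 : 1 ≤ Y ^ 2 := Nat.one_le_pow _ _ hY
  have h2 : 1 ≤ Y ^ 3 := Nat.one_le_pow _ _ hY
  calc (4 * Y ^ 2 + 1) * (2 * Y ^ 3 + 1) ≤ (6 * Y ^ 2) * (3 * Y ^ 3) :=
        Nat.mul_le_mul (by omega) (by omega)
    _ = 18 * Y ^ 5 := by ring

theorem cnt : Pool.Agent.N922.PQ.S_CNT := by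
  intro good P X₀ c hc hP h
  refine ⟨c / (576 * (P : ℝ) ^ 5), by positivity, 27 * ((X₀ + 1) * P) ^ 6, fun H hH => ?_⟩
  obtain ⟨X, hX1, hX2⟩ := exists_X P H hP
  have hX : X₀ < X := by
    by_contra hcon
    push Not at hcon
    have h1 : (X + 1) * P ≤ (X₀ + 1) * P := Nat.mul_le_mul_right P (by omega)
    have h2 : ((X + 1) * P) ^ 6 ≤ ((X₀ + 1) * P) ^ 6 := Nat.pow_le_pow_left h1 6
    omega
  have h3 : H < 27 * (2 * (X * P)) ^ 6 := by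
    have h1 : (X + 1) * P ≤ 2 * (X * P) := by
      have : (X + 1) * P ≤ (2 * X) * P := Nat.mul_le_mul_right P (by omega)
      rwa [mul_assoc] at this
    have h2 : ((X + 1) * P) ^ 6 ≤ (2 * (X * P)) ^ 6 := Nat.pow_le_pow_left h1 6
    omega
  have hY : 1 ≤ 2 * (X * P) := by
    have : 0 < X * P := Nat.mul_pos (by omega) (by omega)
    omega
  have hsub := crv_sub h3
  have hfin : {p : ℤ × ℤ | Crv H p.1 p.2}.Finite := (Finset.finite_toSet _).subset hsub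
  refine ⟨hfin, ?_⟩
  have h4 : {p : ℤ × ℤ | Crv H p.1 p.2}.ncard ≤ 18 * (2 * (X * P)) ^ 5 := by
    refine (Set.ncard_le_ncard hsub (Finset.finite_toSet _)).trans ?_
    rw [Set.ncard_coe_finset]
    exact box_card hY
  have h5 : ({p : ℤ × ℤ | Crv H p.1 p.2}.ncard : ℝ) ≤ 576 * (P : ℝ) ^ 5 * (X : ℝ) ^ 5 := by
    have h6 : ({p : ℤ × ℤ | Crv H p.1 p.2}.ncard : ℝ) ≤ ((18 * (2 * (X * P)) ^ 5 : ℕ) : ℝ) := by
      exact_mod_cast h4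
    refine h6.trans (le_of_eq ?_)
    push_cast
    ring
  refine le_trans ?_ (h X hX.le H hX1)
  have hPr : (0 : ℝ) < 576 * (P : ℝ) ^ 5 := by
    have : (0 : ℝ) < P := by exact_mod_cast hP
    positivity
  calc c / (576 * (P : ℝ) ^ 5) * ({p : ℤ × ℤ | Crv H p.1 p.2}.ncard : ℝ)
      ≤ c / (576 * (P : ℝ) ^ 5) * (576 * (P : ℝ) ^ 5 * (X : ℝ) ^ 5) :=
        mul_le_mul_of_nonneg_left h5 (by positivity)
    _ = c * (X : ℝ) ^ 5 := by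
        rw [← mul_assoc, div_mul_cancel₀ _ hPr.ne']

end Pool.Agent.N607.PQ
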